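import Pool.Agent.K3h88.VR.Stm

/-! VR brick FAM: union bound over families of disjoint triangles (helper37). -/

set_option autoImplicit false

namespace Pool.Agent.K3h37.VR

open Finset Pool.Agent.K3h88.VR

theorem count_zero {X : Type} [Fintype X] [DecidableEq X] (q : ℕ) (hq : 1 ≤ q) (U : Finset X) :
    (univ.filter fun f : X → Fin q => ∀ x ∈ U, (f x : ℕ) = 0).card * q ^ U.card ≤
      q ^ Fintype.card X := by
  have h1 : (univ.filter fun f : X → Fin q => ∀ x ∈ U, (f x : ℕ) = 0) ⊆
      Fintype.piFinset fun x => if x ∈ U then {(⟨0, hq⟩ : Fin q)} else univ := by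
    intro f hf
    rw [Fintype.mem_piFinset]
    intro x
    by_cases hx : x ∈ U
    · rw [if_pos hx, mem_singleton]
      exact Fin.ext ((mem_filter.1 hf).2 x hx)
    · rw [if_neg hx]
      exact mem_univ _
  have h2 : (Fintype.piFinset fun x => if x ∈ U then {(⟨0, hq⟩ : Fin q)} else univ).card =
      ∏ x : X, if x ∈ U then 1 else q := by
    rw [Fintype.card_piFinset]
    refine prod_congr rfl fun x _ => ?_
    by_cases hx : x ∈ U
    · rw [if_pos hx, if_pos hx, card_singleton]
    · rw [if_neg hx, if_neg hx, card_univ, Fintype.card_fin]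
  have h3 : (∏ x : X, if x ∈ U then 1 else q) * q ^ U.card = q ^ Fintype.card X := by
    have h4 : q ^ U.card = ∏ x : X, if x ∈ U then q else 1 := by
      rw [prod_ite_mem, univ_inter, prod_const]
    rw [h4, ← prod_mul_distrib]
    have h5 : ∀ x ∈ (univ : Finset X), ((if x ∈ U then 1 else q) * if x ∈ U then q else 1) = q := by
      intro x _
      by_cases hx : x ∈ U
      · rw [if_pos hx, if_pos hx, one_mul]
      · rw [if_neg hx, if_neg hx, mul_one]
    rw [prod_congr rfl h5, prod_const, card_univ]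
  calc _ ≤ (Fintype.piFinset fun x => if x ∈ U then {(⟨0, hq⟩ : Fin q)} else univ).card *
        q ^ U.card := Nat.mul_le_mul_right _ (card_le_card h1)
    _ = q ^ Fintype.card X := by rw [h2, h3]

theorem t_FAM : S_FAM := by
  classical
  intro X _ _ 𝒯 q k hq h3
  have h0 : (Nat.card {f : X → Fin q // ∃ S ⊆ 𝒯, S.card = k ∧ PD S ∧
      ∀ T ∈ S, ∀ x ∈ T, (f x : ℕ) = 0}) =
      (univ.filter fun f : X → Fin q => ∃ S ⊆ 𝒯, S.card = k ∧ PD S ∧
        ∀ T ∈ S, ∀ x ∈ T, (f x : ℕ) = 0).card := by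
    rw [Nat.card_eq_fintype_card, Fintype.card_subtype]
  rw [h0]
  have h1 : (univ.filter fun f : X → Fin q => ∃ S ⊆ 𝒯, S.card = k ∧ PD S ∧
        ∀ T ∈ S, ∀ x ∈ T, (f x : ℕ) = 0) ⊆
      ((powersetCard k 𝒯).filter fun S => PD S).biUnion fun S =>
        univ.filter fun f : X → Fin q => ∀ x ∈ S.biUnion id, (f x : ℕ) = 0 := by
    intro f hf
    obtain ⟨S, hS, hk, hP, hz⟩ := (mem_filter.1 hf).2
    rw [mem_biUnion]
    refine ⟨S, mem_filter.2 ⟨mem_powersetCard.2 ⟨hS, hk⟩, hP⟩,
      mem_filter.2 ⟨mem_univ _, fun x hx => ?_⟩⟩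
    obtain ⟨T, hT, hxT⟩ := mem_biUnion.1 hx
    exact hz T hT x hxT
  have h2 : (univ.filter fun f : X → Fin q => ∃ S ⊆ 𝒯, S.card = k ∧ PD S ∧
        ∀ T ∈ S, ∀ x ∈ T, (f x : ℕ) = 0).card * q ^ (3 * k) ≤
      (𝒯.card.choose k) * q ^ Fintype.card X := by
    calc _ ≤ (∑ S ∈ (powersetCard k 𝒯).filter fun S => PD S,
          (univ.filter fun f : X → Fin q => ∀ x ∈ S.biUnion id, (f x : ℕ) = 0).card) *
            q ^ (3 * k) :=
          Nat.mul_le_mul_right _ ((card_le_card h1).trans card_biUnion_le)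
      _ = ∑ S ∈ (powersetCard k 𝒯).filter fun S => PD S,
          (univ.filter fun f : X → Fin q => ∀ x ∈ S.biUnion id, (f x : ℕ) = 0).card *
            q ^ (3 * k) := sum_mul _ _ _
      _ ≤ ∑ S ∈ (powersetCard k 𝒯).filter fun S => PD S, q ^ Fintype.card X := by
          refine sum_le_sum fun S hS => ?_
          obtain ⟨hS1, hS2⟩ := mem_filter.1 hS
          obtain ⟨hS3, hS4⟩ := mem_powersetCard.1 hS1
          have hU : (S.biUnion id).card = 3 * k := by
            have hd : ((S : Set (Finset X))).PairwiseDisjoint (id : Finset X → Finset X) :=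
              fun T hT T' hT' hne => hS2 T hT T' hT' hne
            have hs : ∀ T ∈ S, (id T : Finset X).card = 3 := fun T hT => h3 T (hS3 hT)
            rw [card_biUnion hd, sum_congr rfl hs, sum_const, hS4, smul_eq_mul, mul_comm]
          rw [← hU]
          exact count_zero q hq _
      _ ≤ (𝒯.card.choose k) * q ^ Fintype.card X := by
          rw [sum_const, smul_eq_mul]
          refine Nat.mul_le_mul_right _ ((card_filter_le _ _).trans ?_)
          rw [card_powersetCard]
  exact_mod_cast h2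

end Pool.Agent.K3h37.VR
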